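import Pool.Agent.H50.Z.MZ_Main

/-!
# Surjectivity of `D(V)^G → D(V//G)` implies graded surjectivity

`G ⊆ GL_m(ℂ)` is a reductive linear group (every rational representation is completely reducible),
`ρ : G → GL(V)`, `V = ℂ^ν`, a rational representation, `O(V) = ℂ[x_i : i ∈ ν]`.
The result: if the restriction map `(π_V)_* : D(V)^G → D(V//G)` is surjective, then it is graded
surjective.
-/

open MvPolynomial

namespace Pool.Agent.Results.MP_709499_al.SurjImpliesGradedSurj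

/-- `IsDiff R n P` means `P ∈ D^{n-1}(R)`, i.e. `P` is a Grothendieck differential operator of
order `< n` on the commutative algebra `R`: `D^{-1}(R) = 0`, and `D^n(R)` consists of the linear
operators `P` on `R` such that the commutator `[P, f]` is in `D^{n-1}(R)` for all `f ∈ R`. -/
def IsDiff (R : Type) [CommRing R] [Algebra ℂ R] : ℕ → (R → R) → Prop
  | 0, P => ∀ a, P a = 0
  | n + 1, P => IsLinearMap ℂ P ∧ ∀ f : R, IsDiff R n fun a => P (f * a) - f * P a

/-- `f : G → ℂ` is a regular function on the linear group `G ⊆ GL_m(ℂ)`: a polynomial in the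
matrix entries divided by a power of the determinant -/
def IsRegular {m : ℕ} (G : Subgroup (GL (Fin m) ℂ)) (f : G → ℂ) : Prop :=
  ∃ (F : MvPolynomial (Fin m × Fin m) ℂ) (N : ℕ), ∀ g : G,
    f g * ((g : GL (Fin m) ℂ) : Matrix (Fin m) (Fin m) ℂ).det ^ N =
      eval (fun p => ((g : GL (Fin m) ℂ) : Matrix (Fin m) (Fin m) ℂ) p.1 p.2) F

/-- `ρ : G → GL_ν(ℂ)` is a rational representation: its matrix coefficients are regular -/
def IsRational {m : ℕ} (G : Subgroup (GL (Fin m) ℂ)) {ν : Type} [Fintype ν] [DecidableEq ν]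
    (ρ : G →* GL ν ℂ) : Prop :=
  ∀ i j, IsRegular G fun g => ((ρ g : GL ν ℂ) : Matrix ν ν ℂ) i j

/-- the linear group `G` is (linearly) reductive: in every rational representation every invariant
subspace has an invariant complement -/
def IsReductive {m : ℕ} (G : Subgroup (GL (Fin m) ℂ)) : Prop :=
  ∀ (r : ℕ) (σ : G →* GL (Fin r) ℂ), IsRational G σ →
    ∀ U : Submodule ℂ (Fin r → ℂ),
      (∀ g, ∀ u ∈ U, ((σ g : GL (Fin r) ℂ) : Matrix (Fin r) (Fin r) ℂ).mulVec u ∈ U) →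
      ∃ U' : Submodule ℂ (Fin r → ℂ),
        (∀ g, ∀ u ∈ U', ((σ g : GL (Fin r) ℂ) : Matrix (Fin r) (Fin r) ℂ).mulVec u ∈ U') ∧
        IsCompl U U'

section Group

variable {G : Type} [Group G] {ν : Type} [Fintype ν] [DecidableEq ν]

/-- the action of a matrix on polynomial functions, `(g f)(x) = f(g⁻¹ x)` -/
noncomputable def gact (g : GL ν ℂ) : MvPolynomial ν ℂ →ₐ[ℂ] MvPolynomial ν ℂ :=
  aeval fun i => ∑ j, C (((g⁻¹ : GL ν ℂ) : Matrix ν ν ℂ) i j) * X j

/-- the algebra of invariants `O(V)^G = O(V//G)` -/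
noncomputable def OVG (ρ : G →* GL ν ℂ) : Subalgebra ℂ (MvPolynomial ν ℂ) where
  carrier := {f | ∀ g, gact (ρ g) f = f}
  mul_mem' := by
    intro a b ha hb g
    rw [map_mul, ha g, hb g]
  add_mem' := by
    intro a b ha hb g
    rw [map_add, ha g, hb g]
  algebraMap_mem' := fun r g => (gact (ρ g)).commutes r

/-- `Q ∈ D^{n-1}(V)^G`: an invariant differential operator on `V` of order `< n` -/
def IsDiffInv (ρ : G →* GL ν ℂ) (n : ℕ) (Q : MvPolynomial ν ℂ → MvPolynomial ν ℂ) : Prop :=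
  IsDiff (MvPolynomial ν ℂ) n Q ∧ ∀ g f, Q (gact (ρ g) f) = gact (ρ g) (Q f)

/-- `(π_V)_* : D(V)^G → D(V//G)` is surjective: every differential operator on `O(V)^G` is the
restriction of an invariant differential operator on `V` -/
def PiSurjective (ρ : G →* GL ν ℂ) : Prop :=
  ∀ n (P : OVG ρ → OVG ρ), IsDiff (OVG ρ) n P →
    ∃ m Q, IsDiffInv ρ m Q ∧ ∀ a : OVG ρ, Q a = P a

/-- `gr (π_V)_*` is surjective: for every `n`, every `P ∈ D^n(V//G)` is congruent modulo
`D^{n-1}(V//G)` to the restriction of an operator `Q ∈ D^n(V)^G` -/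
def PiGradedSurjective (ρ : G →* GL ν ℂ) : Prop :=
  ∀ n (P : OVG ρ → OVG ρ), IsDiff (OVG ρ) (n + 1) P →
    ∃ Q P₀, IsDiffInv ρ (n + 1) Q ∧ IsDiff (OVG ρ) n P₀ ∧ ∀ a : OVG ρ, Q a = P a + P₀ a

/-! ### proof -/

lemma isDiff_of_DOp {R : Type} [CommRing R] [Algebra ℂ R] {n : ℕ} {P : Module.End ℂ R}
    (hP : H50.DO.DOp n P) : IsDiff R n P := by
  induction n generalizing P with
  | zero =>
    rw [H50.DO.DOp_zero_iff] at hP
    intro a
    rw [hP]
    rfl
  | succ n ih => exact ⟨P.isLinear, fun f => ih (hP f)⟩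

lemma DOp_of_isDiff {R : Type} [CommRing R] [Algebra ℂ R] {n : ℕ} {P : Module.End ℂ R}
    (hP : IsDiff R n P) : H50.DO.DOp n P := by
  induction n generalizing P with
  | zero => exact LinearMap.ext hP
  | succ n ih => exact fun f => ih (hP.2 f)

lemma isLinearMap_of_isDiff {R : Type} [CommRing R] [Algebra ℂ R] {n : ℕ} {P : R → R}
    (hP : IsDiff R n P) : IsLinearMap ℂ P := by
  cases n with
  | zero =>
    have h1 : P = fun _ => 0 := funext hP
    rw [h1]
    exact ⟨fun _ _ => (add_zero _).symm, fun c _ => (smul_zero c).symm⟩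
  | succ n => exact hP.1

lemma isDiff_zero (R : Type) [CommRing R] [Algebra ℂ R] (n : ℕ) : IsDiff R n fun _ => 0 := by
  induction n with
  | zero => exact fun _ => rfl
  | succ n ih =>
    refine ⟨⟨fun _ _ => (add_zero _).symm, fun c _ => (smul_zero c).symm⟩, fun f => ?_⟩
    have h1 : (fun a : R => (fun _ : R => (0 : R)) (f * a) - f * (fun _ : R => (0 : R)) a) =
        fun _ => 0 := by
      funext a
      simp
    rw [h1]
    exact ih

lemma gact_eq (g : GL ν ℂ) (f : MvPolynomial ν ℂ) :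
    gact g f = H50.Z.act ((g⁻¹ : GL ν ℂ) : Matrix ν ν ℂ) f := rfl

lemma mem_OVG {ρ : G →* GL ν ℂ} {f : MvPolynomial ν ℂ} :
    f ∈ OVG ρ ↔ ∀ g, H50.Z.act ((ρ g : GL ν ℂ) : Matrix ν ν ℂ) f = f := by
  constructor
  · intro h g
    have h1 := h g⁻¹
    rwa [gact_eq, map_inv, inv_inv] at h1
  · intro h g
    rw [gact_eq, ← map_inv]
    exact h g⁻¹

lemma surj_of_surjective (ρ : G →* GL ν ℂ) (hsurj : PiSurjective ρ) :
    H50.Z.Surj (OVG ρ) := by
  rintro P ⟨n, hn⟩
  obtain ⟨m, Q, hQ, hQP⟩ := hsurj n P (isDiff_of_DOp hn)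
  exact ⟨(isLinearMap_of_isDiff hQ.1).mk' Q, ⟨m, DOp_of_isDiff hQ.1⟩, hQP⟩

end Group

/-- **Surjective implies graded surjective.** -/
theorem result {m : ℕ} (G : Subgroup (GL (Fin m) ℂ)) (hG : IsReductive G)
    {ν : Type} [Fintype ν] [DecidableEq ν] (ρ : G →* GL ν ℂ) (hρ : IsRational G ρ)
    (hsurj : PiSurjective ρ) : PiGradedSurjective ρ := by
  have hLR : H50.Z.Mo.LR (H50.Z.Mo.regAlg G) := fun r σ hσ U hU => hG r σ hσ U hU
  have hdet : (fun g => (((ρ g : GL ν ℂ) : Matrix ν ν ℂ).det)⁻¹) ∈ H50.Z.Mo.regAlg G :=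
    H50.Z.Mo.isReg_det_inv ρ hρ
  intro n P hP
  obtain ⟨Q, hQ, hQG, hQP⟩ := H50.Z.Mo.main_LR hLR ρ hρ hdet (OVG ρ) (fun f => mem_OVG)
    (surj_of_surjective ρ hsurj) (P := (isLinearMap_of_isDiff hP).mk' P) (DOp_of_isDiff hP)
  refine ⟨Q, fun _ => 0, ⟨isDiff_of_DOp hQ, ?_⟩, isDiff_zero _ _, ?_⟩
  · intro g f
    symm
    rw [gact_eq, gact_eq, ← map_inv]
    exact hQG g⁻¹ f
  · intro a
    rw [hQP a]
    exact (add_zero _).symm

end Pool.Agent.Results.MP_709499_al.SurjImpliesGradedSurj
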